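import Mathlib
import Pool.Agent.N759.CFr.Tensor

/-! # MP_edeaa2_an: tensor products of binary lattices and common blocks of continued fractions

Let `α, β` be irrational and suppose that arbitrarily long blocks of consecutive partial quotients
of `α` occur (read forwards or backwards) in the continued fraction of `β`, or more generally of
`(aβ+b)/(cβ+d)` with `a,b,c,d` integers, `ad ≠ bc`.  Let `g` and `h` be real `2 × 2` matrices whose
first rows are proportional to `(α, 1)` and `(β, 1)`, the second rows being arbitrary, and let `G` be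
an arbitrary real `n × n` matrix.  Then the product of the `4n` linear forms in `4n` variables given
by the rows of the Kronecker product `g ⊗ h ⊗ G` takes arbitrarily small values at nonzero integer
points. -/

open Matrix Kronecker Pool.Agent.N759.CFr

namespace Pool.Agent.Results.MP_edeaa2_an.CommonBlocks

theorem result (α β : ℝ) (hα : Irrational α) (hβ : Irrational β)
    (M : Matrix (Fin 2) (Fin 2) ℤ) (hM : M.det ≠ 0)
    (hc : ∀ ℓ : ℕ, ∃ i j : ℕ,
      (∀ r < ℓ, pq α (i + r) = pq ((M 0 0 * β + M 0 1) / (M 1 0 * β + M 1 1)) (j + r)) ∨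
      (∀ r < ℓ, pq α (i + r) = pq ((M 0 0 * β + M 0 1) / (M 1 0 * β + M 1 1)) (j + (ℓ - 1 - r))))
    (g h : Matrix (Fin 2) (Fin 2) ℝ) (hg : g 0 0 = α * g 0 1) (hh : h 0 0 = β * h 0 1)
    (n : ℕ) (hn : 0 < n) (G : Matrix (Fin n) (Fin n) ℝ) (ε : ℝ) (hε : 0 < ε) :
    ∃ x : (Fin 2 × Fin 2) × Fin n → ℤ, x ≠ 0 ∧
      |∏ i, (((g ⊗ₖ h) ⊗ₖ G) *ᵥ fun j => (x j : ℝ)) i| < ε := by
  -- the denominator does not vanish
  have hdet : M 0 0 * M 1 1 - M 0 1 * M 1 0 ≠ 0 := by rwa [Matrix.det_fin_two] at hM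
  have hden : (M 1 0 * β + M 1 1 : ℝ) ≠ 0 := by
    intro h0
    by_cases h1 : M 1 0 = 0
    · rw [h1] at h0 hdet
      have h2 : (M 1 1 : ℝ) = 0 := by simpa using h0
      have h3 : M 1 1 = 0 := by exact_mod_cast h2
      rw [h3] at hdet
      simp at hdet
    · apply hβ
      refine ⟨-(M 1 1 : ℚ) / (M 1 0 : ℚ), ?_⟩
      have h2 : (M 1 0 : ℝ) ≠ 0 := by exact_mod_cast h1
      push_cast
      rw [div_eq_iff h2]
      linarith
  set β₁ : ℝ := (M 0 0 * β + M 0 1) / (M 1 0 * β + M 1 1) with hβ₁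
  have hβ₁m : β₁ * (M 1 0 * β + M 1 1) = M 0 0 * β + M 0 1 := by
    rw [hβ₁]; exact div_mul_cancel₀ _ hden
  have hβ₁i : Irrational β₁ := by
    rintro ⟨q, hq⟩
    rw [← hq] at hβ₁m
    -- (q c - a) β = b - q d
    have h1 : ((q * M 1 0 - M 0 0 : ℚ) : ℝ) * β = ((M 0 1 - q * M 1 1 : ℚ) : ℝ) := by
      push_cast
      linarith
    by_cases h2 : (q * M 1 0 - M 0 0 : ℚ) = 0
    · rw [h2] at h1
      have h3 : (M 0 1 - q * M 1 1 : ℚ) = 0 := by
        have h4 : ((M 0 1 - q * M 1 1 : ℚ) : ℝ) = 0 := by rw [← h1]; simp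
        exact_mod_cast h4
      have h5 : ((M 0 0 * M 1 1 - M 0 1 * M 1 0 : ℤ) : ℚ) = 0 := by
        push_cast
        linear_combination (-(M 1 1 : ℚ)) * h2 - (M 1 0 : ℚ) * h3
      exact hdet (by exact_mod_cast h5)
    · apply hβ
      refine ⟨(M 0 1 - q * M 1 1) / (q * M 1 0 - M 0 0), ?_⟩
      have h3 : ((q * M 1 0 - M 0 0 : ℚ) : ℝ) ≠ 0 := by exact_mod_cast h2
      rw [Rat.cast_div, div_eq_iff h3, ← h1]
      ring
  -- the twisted second matrix
  set h₁ : Matrix (Fin 2) (Fin 2) ℝ := h * (M.map (Int.cast : ℤ → ℝ))ᵀ with hh₁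
  have hh₁0 : h₁ 0 0 = β₁ * h₁ 0 1 := by
    rw [hh₁]
    simp only [Matrix.mul_apply, Fin.sum_univ_two, transpose_apply, map_apply, hh]
    linear_combination (-(h 0 1)) * hβ₁m
  -- the size of the remaining factor
  obtain ⟨y, hy⟩ : ∃ y : Fin n → ℤ, y ≠ 0 := by
    refine ⟨fun _ => 1, fun h => ?_⟩
    have := congrFun h ⟨0, hn⟩
    simp at this
  set c : ℝ := |∏ k, (G *ᵥ fun l => (y l : ℝ)) k| ^ 4 with hcdef
  have hc0 : 0 ≤ c := by positivity
  set δ : ℝ := min 1 (ε / (c + 1)) with hδ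
  have hδ0 : 0 < δ := by
    rw [hδ]
    exact lt_min one_pos (by positivity)
  obtain ⟨X, hX, hX2⟩ := core hα hβ₁i hc g h₁ hg hh₁0 δ hδ0
  set Y : Matrix (Fin 2) (Fin 2) ℤ := X * M with hY
  have hYdet : Y.det ≠ 0 := by
    rw [hY, det_mul]
    exact mul_ne_zero hX hM
  have hYeq : g * X.map (Int.cast : ℤ → ℝ) * h₁ᵀ = g * Y.map (Int.cast : ℤ → ℝ) * hᵀ := by
    have h1 : Y.map (Int.cast : ℤ → ℝ) = X.map (Int.cast : ℤ → ℝ) * M.map (Int.cast : ℤ → ℝ) := by
      have := (Int.castRingHom ℝ).mapMatrix.map_mul X M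
      simpa using this
    rw [h1, hh₁, transpose_mul, transpose_transpose]
    simp only [Matrix.mul_assoc]
  rw [hYeq] at hX2
  refine ⟨fun p => Y p.1.1 p.1.2 * y p.2, ?_, ?_⟩
  · intro h0
    apply hYdet
    obtain ⟨l, hl⟩ : ∃ l, y l ≠ 0 := by
      by_contra hcon
      push Not at hcon
      exact hy (funext hcon)
    have h1 : ∀ a b, Y a b = 0 := by
      intro a b
      have := congrFun h0 ((a, b), l)
      simpa [hl] using this
    rw [Matrix.det_fin_two, h1, h1, h1, h1]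
    ring
  · have hentry : ∀ i : (Fin 2 × Fin 2) × Fin n,
        (((g ⊗ₖ h) ⊗ₖ G) *ᵥ fun j => ((Y j.1.1 j.1.2 * y j.2 : ℤ) : ℝ)) i
          = (g * Y.map (Int.cast : ℤ → ℝ) * hᵀ) i.1.1 i.1.2 * (G *ᵥ fun l => (y l : ℝ)) i.2 := by
      rintro ⟨⟨i, j⟩, k⟩
      simp only [mulVec, dotProduct, Fintype.sum_prod_type, kroneckerMap_apply, Int.cast_mul,
        Matrix.mul_apply, transpose_apply, map_apply]
      rw [Finset.sum_mul_sum]
      simp only [Fin.sum_univ_two]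
      simp only [← Finset.sum_add_distrib]
      refine Finset.sum_congr rfl fun l _ => ?_
      ring
    have hprod : ∏ i : (Fin 2 × Fin 2) × Fin n,
        (((g ⊗ₖ h) ⊗ₖ G) *ᵥ fun j => ((Y j.1.1 j.1.2 * y j.2 : ℤ) : ℝ)) i
          = (∏ i, ∏ j, (g * Y.map (Int.cast : ℤ → ℝ) * hᵀ) i j) ^ n
              * (∏ k, (G *ᵥ fun l => (y l : ℝ)) k) ^ 4 := by
      rw [Finset.prod_congr rfl fun i _ => hentry i, Fintype.prod_prod_type]
      simp only [Finset.prod_mul_distrib, Finset.prod_const, Finset.card_univ, Fintype.card_fin,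
        Fintype.prod_prod_type, Fintype.card_prod, Finset.prod_pow]
    rw [hprod, abs_mul, abs_pow, abs_pow]
    have h1 : |∏ i, ∏ j, (g * Y.map (Int.cast : ℤ → ℝ) * hᵀ) i j| ^ n ≤ δ := by
      have h2 : |∏ i, ∏ j, (g * Y.map (Int.cast : ℤ → ℝ) * hᵀ) i j| ≤ 1 :=
        hX2.le.trans (min_le_left _ _)
      calc |∏ i, ∏ j, (g * Y.map (Int.cast : ℤ → ℝ) * hᵀ) i j| ^ n
          ≤ |∏ i, ∏ j, (g * Y.map (Int.cast : ℤ → ℝ) * hᵀ) i j| ^ 1 :=
            pow_le_pow_of_le_one (abs_nonneg _) h2 hn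
        _ ≤ δ := by rw [pow_one]; exact hX2.le
    have h3 : δ * c < ε := by
      have h4 : δ ≤ ε / (c + 1) := min_le_right _ _
      have h5 : δ * (c + 1) ≤ ε := by rwa [le_div_iff₀ (by positivity)] at h4
      nlinarith
    calc |∏ i, ∏ j, (g * Y.map (Int.cast : ℤ → ℝ) * hᵀ) i j| ^ n
          * |∏ k, (G *ᵥ fun l => (y l : ℝ)) k| ^ 4 ≤ δ * c := by
          rw [hcdef]
          exact mul_le_mul_of_nonneg_right h1 (by positivity)
      _ < ε := h3

end Pool.Agent.Results.MP_edeaa2_an.CommonBlocks
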