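import Mathlib
import Pool.Agent.N759.WP.Final

/-! # MP_edeaa2_an: long powers of matrices of bounded size in the orbit of a product of linear forms

Let `d ≥ 3`, let `g` be a real invertible `d × d` matrix and `F` the product of the linear forms
given by its rows.  If `F` is bounded away from zero at nonzero integer points then (Mahler) every
diagonal `a` with `∏ a_i = 1` has a `γ ∈ GL_d(ℤ)` such that the entries of `diag(a) g γ` are
bounded by a constant; the matrices `γ` are the reduced bases of the form along its orbit.  Suppose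
that among these bases there are arbitrarily long sequences `V, VW, VW², …, VW^m` with a matrix
`W ∈ GL_d(ℤ)` of bounded size, which is of infinite order, and suppose that `d` is prime, or that
for some `r` the number of complex eigenvalues of `W` of modulus `r`, with multiplicities, is prime
to `d`.  Then `F` is proportional to an integral form or `F` takes arbitrarily small values at
nonzero integer points. -/

open Filter Topology

namespace Pool.Agent.Results.MP_edeaa2_an.LongPowers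

theorem result (d : ℕ) (hd : 3 ≤ d) (g : Matrix (Fin d) (Fin d) ℝ) (hg : g.det ≠ 0) (C R : ℝ)
    (h : ∀ m : ℕ, ∃ V W : Matrix (Fin d) (Fin d) ℤ, |V.det| = 1 ∧ |W.det| = 1 ∧
      (∀ i k, |(W i k : ℝ)| ≤ R) ∧
      ((d.Prime ∧ ∀ n : ℕ, 0 < n → W ^ n ≠ 1) ∨
        ∃ r : ℝ, Nat.Coprime (Multiset.card
          ((W.map (Int.cast : ℤ → ℂ)).charpoly.roots.filter fun z => ‖z‖ = r)) d) ∧
      ∀ j : ℕ, j ≤ m → ∃ a : Fin d → ℝ, |∏ i, a i| = 1 ∧
        ∀ i k, |(Matrix.diagonal a * g * (V * W ^ j).map (Int.cast : ℤ → ℝ)) i k| ≤ C) :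
    (∃ c : ℝ, c ≠ 0 ∧ ∀ m : Fin d →₀ ℕ, ∃ z : ℤ, MvPolynomial.coeff m
        (c • (∏ i : Fin d, ∑ j : Fin d,
          MvPolynomial.C (g i j) * MvPolynomial.X j : MvPolynomial (Fin d) ℝ)) = (z : ℝ)) ∨
    ∀ ε : ℝ, 0 < ε → ∃ x : Fin d → ℤ, x ≠ 0 ∧
      |∏ i : Fin d, ∑ j : Fin d, g i j * (x j : ℝ)| < ε := by
  classical
  choose V W hV hWdet hWR hW hgood using h
  -- one matrix occurs infinitely often
  have hfin : ({M : Fin d → Fin d → ℤ | ∀ i k, M i k ∈ Set.Icc (-⌈R⌉) ⌈R⌉}).Finite := by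
    have h2 : ({v : Fin d → ℤ | ∀ k, v k ∈ Set.Icc (-⌈R⌉) ⌈R⌉}).Finite :=
      Set.Finite.pi' fun _ => Set.finite_Icc _ _
    exact Set.Finite.pi' fun _ => h2
  have hmem : ∀ m, (W m : Fin d → Fin d → ℤ) ∈
      {M : Fin d → Fin d → ℤ | ∀ i k, M i k ∈ Set.Icc (-⌈R⌉) ⌈R⌉} := by
    intro m i k
    have h2 := abs_le.1 (hWR m i k)
    have h3 := Int.le_ceil R
    constructor
    · have : ((-⌈R⌉ : ℤ) : ℝ) ≤ ((W m i k : ℤ) : ℝ) := by
        rw [Int.cast_neg]
        linarith [h2.1]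
      exact_mod_cast this
    · have : ((W m i k : ℤ) : ℝ) ≤ ((⌈R⌉ : ℤ) : ℝ) := h2.2.trans h3
      exact_mod_cast this
  obtain ⟨W₀, -, hfreq⟩ : ∃ W₀ ∈ {M : Fin d → Fin d → ℤ | ∀ i k, M i k ∈ Set.Icc (-⌈R⌉) ⌈R⌉},
      ∃ᶠ m in atTop, (W m : Fin d → Fin d → ℤ) = W₀ := by
    by_contra hcon
    push Not at hcon
    have h1 : ∀ᶠ m in atTop, ∀ W₀ ∈ {M : Fin d → Fin d → ℤ | ∀ i k, M i k ∈ Set.Icc (-⌈R⌉) ⌈R⌉},
        (W m : Fin d → Fin d → ℤ) ≠ W₀ := by
      rw [eventually_all_finite hfin]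
      intro W₀ h0
      exact hcon W₀ h0
    obtain ⟨m, hm⟩ := h1.exists
    exact hm _ (hmem m) rfl
  obtain ⟨m₀, hm₀⟩ := hfreq.exists
  have hunit : IsUnit (W m₀) := by
    rw [Matrix.isUnit_iff_isUnit_det]
    exact Int.isUnit_iff_abs_eq.2 (hWdet m₀)
  obtain ⟨U, hU⟩ := hunit
  refine Pool.Agent.N759.WP.word_main hd hg U ?_ C fun m => ?_
  · rcases hW m₀ with ⟨hp, hinf⟩ | ⟨r, hr⟩
    · refine Or.inl ⟨hp, fun n hn hUn => hinf n hn ?_⟩
      have h1 := congrArg (fun u : (Matrix (Fin d) (Fin d) ℤ)ˣ => (u : Matrix (Fin d) (Fin d) ℤ)) hUn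
      simpa [Units.val_pow_eq_pow_val, hU] using h1
    · refine Or.inr ⟨r, ?_⟩
      rw [hU]
      exact hr
  · obtain ⟨n, hn, hWn⟩ := (frequently_atTop.1 hfreq) m
    refine ⟨V n, hV n, fun j hj => ?_⟩
    obtain ⟨a, ha, hC⟩ := hgood n j (hj.trans hn)
    refine ⟨a, ha, ?_⟩
    have hWU : W n = (U : Matrix (Fin d) (Fin d) ℤ) := by
      rw [hU]
      exact hWn.trans hm₀.symm
    rw [← hWU]
    exact hC

end Pool.Agent.Results.MP_edeaa2_an.LongPowers
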