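import Mathlib
import Pool.Agent.N759.CFr.Palin

/-! # MP_edeaa2_an: even symmetric powers of binary lattices and palindromes

Let `m ≥ 1`, let `g` be a real invertible `2 × 2` matrix with first row proportional to `(α, 1)`,
`α` irrational (the second row is arbitrary), and let `Sym^{2m} g` be the matrix of the map
`P ↦ P((X,Y) g)` on binary forms of degree `2m`.  If the continued fraction of `α` contains
arbitrarily long palindromes (anywhere in the expansion), then the product of the linear forms given
by the rows of `Sym^{2m} g`, and more generally of `Sym^{2m} g ⊗ G` for any real `n × n` matrix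
`G`, takes arbitrarily small values at nonzero integer points. -/

open Matrix Kronecker Pool.Agent.N759.CFr

namespace Pool.Agent.Results.MP_edeaa2_an.PalindromicPowers

theorem result (α : ℝ) (hα : Irrational α)
    (hpal : ∀ N : ℕ, ∃ s L : ℕ, N ≤ L ∧ ∀ j < L, pq α (s + j) = pq α (s + (L - 1 - j)))
    (m : ℕ) (hm : 1 ≤ m)
    (g : Matrix (Fin 2) (Fin 2) ℝ) (hdet : g.det ≠ 0) (hg : g 0 0 = α * g 0 1)
    (n : ℕ) (hn : 0 < n) (G : Matrix (Fin n) (Fin n) ℝ) (ε : ℝ) (hε : 0 < ε) :
    ∃ x : Fin (2 * m + 1) × Fin n → ℤ, x ≠ 0 ∧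
      |∏ i, ((symM (2 * m) g ⊗ₖ G) *ᵥ fun j => (x j : ℝ)) i| < ε :=
  pal_small hα hpal m hm g hdet hg n hn G ε hε

end Pool.Agent.Results.MP_edeaa2_an.PalindromicPowers
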